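import Pool.Agent.H717.PM.Stm

/-!
# PM717 NATAND: small natural certificates (AND)
-/

set_option autoImplicit false

namespace Pool.Agent.H102.PM

open Pool.Agent.NPC Pool.Agent.H622R2 Pool.Agent.V11227.BT
open Pool.Agent.H717.PM

/-- The form `e_a + e_b - e_c - e_d`. -/
noncomputable def frm {ι : Type} (a b c d : ι) : ι → ℤ :=
  open Classical in fun j => (if j = a then 1 else 0) + (if j = b then 1 else 0) -
    (if j = c then 1 else 0) - (if j = d then 1 else 0)

theorem frm_abs {ι : Type} (a b c d j : ι) : |frm a b c d j| ≤ 2 := by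
  unfold frm
  rw [abs_le]
  constructor <;> (split_ifs <;> norm_num)

theorem frm_sum_int {ι : Type} [Fintype ι] (a b c d : ι) (y : ι → ℤ) :
    ∑ j, frm a b c d j * y j = y a + y b - (y c + y d) := by
  classical
  have h1 : ∀ j, frm a b c d j * y j = (if j = a then y j else 0) + (if j = b then y j else 0) -
      (if j = c then y j else 0) - (if j = d then y j else 0) := by
    intro j
    unfold frm
    split_ifs <;> ring
  simp only [h1, Finset.sum_add_distrib, Finset.sum_sub_distrib, Finset.sum_ite_eq',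
    Finset.mem_univ, if_true]
  ring

theorem frm_sum_real {ι : Type} [Fintype ι] (a b c d : ι) (y : ι → ℝ) :
    ∑ j, (frm a b c d j : ℝ) * y j = y a + y b - (y c + y d) := by
  classical
  have h1 : ∀ j, (frm a b c d j : ℝ) * y j =
      (if j = a then y j else 0) + (if j = b then y j else 0) -
      (if j = c then y j else 0) - (if j = d then y j else 0) := by
    intro j
    unfold frm
    push_cast
    split_ifs <;> ring
  simp only [h1, Finset.sum_add_distrib, Finset.sum_sub_distrib, Finset.sum_ite_eq',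
    Finset.mem_univ, if_true]
  ring

/-- Small natural points with the same comparisons of sums of two coordinates. -/
theorem small' (h : S_small) (ι : Type) [Fintype ι] (x : ι → ℝ) (hx : ∀ j, 0 ≤ x j) :
    ∃ y : ι → ℕ, (∀ j, y j ≤ (Fintype.card ι).factorial * 3 ^ Fintype.card ι) ∧
      (∀ j, y j = 0 ↔ x j = 0) ∧
      ∀ a b c d, ((y a : ℝ) + (y b : ℝ) ≤ (y c : ℝ) + (y d : ℝ) ↔ x a + x b ≤ x c + x d) := by
  classical
  obtain ⟨y, hy1, hy2, hy3⟩ := h ι 2 (Fintype.piFinset (fun _ : ι => Finset.Icc (-2 : ℤ) 2))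
    (by
      intro f hf j
      rw [Fintype.mem_piFinset] at hf
      have h1 := Finset.mem_Icc.mp (hf j)
      rw [abs_le]
      exact ⟨h1.1, h1.2⟩) x
  have hnn : ∀ j, 0 ≤ y j := by
    intro j
    have h1 : 0 ≤ SignType.sign (x j) := sign_nonneg_iff.mpr (hx j)
    rw [← hy2 j] at h1
    exact sign_nonneg_iff.mp h1
  have hcast : ∀ j, (((y j).toNat : ℕ) : ℤ) = y j := fun j => Int.toNat_of_nonneg (hnn j)
  have hcastR : ∀ j, (((y j).toNat : ℕ) : ℝ) = ((y j : ℤ) : ℝ) := by
    intro j
    have h1 : ((((y j).toNat : ℕ) : ℤ) : ℝ) = ((y j : ℤ) : ℝ) := by rw [hcast j]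
    rw [← h1]
    exact (Int.cast_natCast _).symm
  refine ⟨fun j => (y j).toNat, ?_, ?_, ?_⟩
  · intro j
    have h1 := hy1 j
    rw [abs_of_nonneg (hnn j), ← hcast j] at h1
    have h2 : (y j).toNat ≤ (Fintype.card ι).factorial * (2 + 1) ^ Fintype.card ι := by
      exact_mod_cast h1
    exact h2
  · intro j
    have h1 : (y j).toNat = 0 ↔ y j = 0 := by
      constructor
      · intro h0
        rw [← hcast j, h0]
        rfl
      · intro h0
        rw [h0]
        rfl
    rw [h1, ← sign_eq_zero_iff, hy2 j, sign_eq_zero_iff]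
  · intro a b c d
    have hmem : frm a b c d ∈ Fintype.piFinset (fun _ : ι => Finset.Icc (-2 : ℤ) 2) := by
      rw [Fintype.mem_piFinset]
      intro j
      have h1 := abs_le.mp (frm_abs a b c d j)
      exact Finset.mem_Icc.mpr h1
    have h1 := hy3 _ hmem
    rw [frm_sum_int, frm_sum_real] at h1
    have h2 : y a + y b - (y c + y d) ≤ 0 ↔ x a + x b - (x c + x d) ≤ 0 := by
      rw [← sign_nonpos_iff, h1, sign_nonpos_iff]
    rw [sub_nonpos, sub_nonpos] at h2
    rw [← h2]
    change (((y a).toNat : ℕ) : ℝ) + (((y b).toNat : ℕ) : ℝ) ≤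
      (((y c).toNat : ℕ) : ℝ) + (((y d).toNat : ℕ) : ℝ) ↔ _
    rw [hcastR, hcastR, hcastR, hcastR]
    exact_mod_cast Iff.rfl

theorem t_natAnd (h : S_small) : S_natAnd := by
  intro M k D lo hi hR
  obtain ⟨hTM, hlh, hadj⟩ := hR
  set n := M.length with hn
  let ι : Type := Fin k × (Fin n × Fin n ⊕ Bool)
  let X : ι → ℝ := fun j => match j with
    | (i, Sum.inl (a, b)) => D i a b
    | (i, Sum.inr false) => lo i
    | (i, Sum.inr true) => hi i
  have hX : ∀ j, 0 ≤ X j := by
    rintro ⟨i, ⟨a, b⟩ | (_ | _)⟩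
    · exact (hTM i i.2).nonneg a a.2 b b.2
    · exact (hlh i i.2).1
    · exact (hlh i i.2).2
  obtain ⟨y, hy1, hy2, hy3⟩ := small' h ι X hX
  have hcard : Fintype.card ι = k * (n * n + 2) := by
    simp [ι, Fintype.card_prod, Fintype.card_sum, Fintype.card_fin, Fintype.card_bool]
  rw [hcard] at hy1
  have hle : ∀ a b, ((y a : ℝ) ≤ (y b : ℝ) ↔ X a ≤ X b) := by
    intro a b
    have h1 := hy3 a a b b
    constructor
    · intro h2
      have := h1.mp (by linarith)
      linarith
    · intro h2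
      have := h1.mpr (by linarith)
      linarith
  let D' : ℕ → ℕ → ℕ → ℕ := fun i a b =>
    if hi : i < k then if ha : a < n then if hb : b < n then
      y (⟨i, hi⟩, Sum.inl (⟨a, ha⟩, ⟨b, hb⟩)) else 0 else 0 else 0
  let lo' : ℕ → ℕ := fun i => if hi : i < k then y (⟨i, hi⟩, Sum.inr false) else 0
  let hi' : ℕ → ℕ := fun i => if hi : i < k then y (⟨i, hi⟩, Sum.inr true) else 0
  have eD : ∀ i (hi : i < k) a (ha : a < n) b (hb : b < n),
      D' i a b = y (⟨i, hi⟩, Sum.inl (⟨a, ha⟩, ⟨b, hb⟩)) := by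
    intro i hi a ha b hb
    change (if hi : i < k then if ha : a < n then if hb : b < n then
      y (⟨i, hi⟩, Sum.inl (⟨a, ha⟩, ⟨b, hb⟩)) else 0 else 0 else 0) = _
    rw [dif_pos hi, dif_pos ha, dif_pos hb]
  have elo : ∀ i (hi : i < k), lo' i = y (⟨i, hi⟩, Sum.inr false) := by
    intro i hi
    change (if hi : i < k then y (⟨i, hi⟩, Sum.inr false) else 0) = _
    rw [dif_pos hi]
  have ehi : ∀ i (hi : i < k), hi' i = y (⟨i, hi⟩, Sum.inr true) := by
    intro i hi
    change (if hi : i < k then y (⟨i, hi⟩, Sum.inr true) else 0) = _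
    rw [dif_pos hi]
  refine ⟨D', lo', hi', ⟨?_, ?_, ?_⟩, ?_⟩
  · intro i hi
    refine ⟨?_, ?_, ?_, ?_⟩
    · intro a ha b hb
      have h1 := (hTM i hi).symm a ha b hb
      change (D' i a b : ℝ) = (D' i b a : ℝ)
      rw [eD i hi a ha b hb, eD i hi b hb a ha]
      exact le_antisymm ((hle _ _).mpr h1.le) ((hle _ _).mpr h1.ge)
    · intro a ha
      change (D' i a a : ℝ) = 0
      rw [eD i hi a ha a ha]
      have h1 : y (⟨i, hi⟩, Sum.inl (⟨a, ha⟩, ⟨a, ha⟩)) = 0 := (hy2 _).mpr ((hTM i hi).diag a ha)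
      rw [h1, Nat.cast_zero]
    · intro a _ b _
      exact Nat.cast_nonneg _
    · intro a ha b hb c hc d hd
      change (D' i a b : ℝ) + (D' i c d : ℝ) ≤ (D' i a c : ℝ) + (D' i b d : ℝ) ∨
        (D' i a b : ℝ) + (D' i c d : ℝ) ≤ (D' i a d : ℝ) + (D' i b c : ℝ)
      rw [eD i hi a ha b hb, eD i hi c hc d hd, eD i hi a ha c hc, eD i hi b hb d hd,
        eD i hi a ha d hd, eD i hi b hb c hc]
      rcases (hTM i hi).four a ha b hb c hc d hd with h1 | h1
      · exact Or.inl ((hy3 _ _ _ _).mpr h1)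
      · exact Or.inr ((hy3 _ _ _ _).mpr h1)
  · intro i _
    exact ⟨Nat.cast_nonneg _, Nat.cast_nonneg _⟩
  · intro a ha b hb hab
    rw [hadj a ha b hb hab]
    constructor
    · intro h1 i hi
      change (lo' i : ℝ) ≤ (D' i a b : ℝ) ∧ (D' i a b : ℝ) ≤ (hi' i : ℝ)
      rw [eD i hi a ha b hb, elo i hi, ehi i hi]
      exact ⟨(hle _ _).mpr (h1 i hi).1, (hle _ _).mpr (h1 i hi).2⟩
    · intro h1 i hi
      have h2 : (lo' i : ℝ) ≤ (D' i a b : ℝ) ∧ (D' i a b : ℝ) ≤ (hi' i : ℝ) := h1 i hi
      rw [eD i hi a ha b hb, elo i hi, ehi i hi] at h2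
      exact ⟨(hle _ _).mp h2.1, (hle _ _).mp h2.2⟩
  · intro i
    have hb : ∀ j, y j ≤ bnd n k := hy1
    refine ⟨?_, ?_, ?_⟩
    · by_cases hik : i < k
      · rw [elo i hik]
        exact hb _
      · change (if hi : i < k then y (⟨i, hi⟩, Sum.inr false) else 0) ≤ _
        rw [dif_neg hik]
        exact Nat.zero_le _
    · by_cases hik : i < k
      · rw [ehi i hik]
        exact hb _
      · change (if hi : i < k then y (⟨i, hi⟩, Sum.inr true) else 0) ≤ _
        rw [dif_neg hik]
        exact Nat.zero_le _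
    · intro a b
      change (if hi : i < k then if ha : a < n then if hb : b < n then
        y (⟨i, hi⟩, Sum.inl (⟨a, ha⟩, ⟨b, hb⟩)) else 0 else 0 else 0) ≤ _
      by_cases hik : i < k
      · rw [dif_pos hik]
        by_cases ha : a < n
        · rw [dif_pos ha]
          by_cases hbn : b < n
          · rw [dif_pos hbn]
            exact hb _
          · rw [dif_neg hbn]
            exact Nat.zero_le _
        · rw [dif_neg ha]
          exact Nat.zero_le _
      · rw [dif_neg hik]
        exact Nat.zero_le _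

end Pool.Agent.H102.PM
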